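import Mathlib

set_option autoImplicit false

namespace Pool.Agent.Results.MP_75315a_co.FourThirds

open Finset

/-- The number of triangles of perimeter `1` spanned by the finite set `P`: the number of three-point
subsets `{a, b, c}` of `P` that are not collinear and have perimeter `|ab| + |bc| + |ca| = 1`. -/
noncomputable def unitPerimeterTriangles (P : Finset (EuclideanSpace ℝ (Fin 2))) : ℕ :=
  {T : Finset (EuclideanSpace ℝ (Fin 2)) | T ⊆ P ∧ ∃ a b c : EuclideanSpace ℝ (Fin 2),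
    (T : Set (EuclideanSpace ℝ (Fin 2))) = {a, b, c} ∧ ¬ Collinear ℝ ({a, b, c} : Set (EuclideanSpace ℝ (Fin 2)))
      ∧ dist a b + dist b c + dist c a = 1}.ncard

/-- the point `u² / (2 (1 + |u|²))` for `u = x + i y` -/
noncomputable def bp (x y : ℝ) : EuclideanSpace ℝ (Fin 2) :=
  !₂[(x ^ 2 - y ^ 2) / (2 * (1 + (x ^ 2 + y ^ 2))), 2 * x * y / (2 * (1 + (x ^ 2 + y ^ 2)))]

lemma dist_zero_bp (x y : ℝ) :
    dist (0 : EuclideanSpace ℝ (Fin 2)) (bp x y) = (x ^ 2 + y ^ 2) / (2 * (1 + (x ^ 2 + y ^ 2))) := by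
  rw [EuclideanSpace.dist_eq]
  have h : 0 < 1 + (x ^ 2 + y ^ 2) := by positivity
  have e : ∑ i, dist ((0 : EuclideanSpace ℝ (Fin 2)) i) (bp x y i) ^ 2
      = ((x ^ 2 + y ^ 2) / (2 * (1 + (x ^ 2 + y ^ 2)))) ^ 2 := by
    simp only [bp, Fin.sum_univ_two, Real.dist_eq, sq_abs, PiLp.toLp_apply, Matrix.cons_val_zero,
      Matrix.cons_val_one, PiLp.zero_apply]
    field_simp
    ring
  rw [e, Real.sqrt_sq (by positivity)]

lemma dist_bp_bp (x y x' y' : ℝ) (hdet : (x * y' - y * x') ^ 2 = 1) :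
    dist (bp x y) (bp x' y')
      = (2 + (x ^ 2 + y ^ 2) + (x' ^ 2 + y' ^ 2))
        / (2 * (1 + (x ^ 2 + y ^ 2)) * (1 + (x' ^ 2 + y' ^ 2))) := by
  rw [EuclideanSpace.dist_eq]
  have h : 0 < 1 + (x ^ 2 + y ^ 2) := by positivity
  have h' : 0 < 1 + (x' ^ 2 + y' ^ 2) := by positivity
  have e : ∑ i, dist (bp x y i) (bp x' y' i) ^ 2
      = ((2 + (x ^ 2 + y ^ 2) + (x' ^ 2 + y' ^ 2))
        / (2 * (1 + (x ^ 2 + y ^ 2)) * (1 + (x' ^ 2 + y' ^ 2)))) ^ 2 := by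
    simp only [bp, Fin.sum_univ_two, Real.dist_eq, sq_abs, PiLp.toLp_apply, Matrix.cons_val_zero,
      Matrix.cons_val_one]
    have key : ((x ^ 2 - y ^ 2) * (1 + (x' ^ 2 + y' ^ 2)) - (x' ^ 2 - y' ^ 2) * (1 + (x ^ 2 + y ^ 2))) ^ 2
        + (2 * x * y * (1 + (x' ^ 2 + y' ^ 2)) - 2 * x' * y' * (1 + (x ^ 2 + y ^ 2))) ^ 2
        = (2 + (x ^ 2 + y ^ 2) + (x' ^ 2 + y' ^ 2)) ^ 2 := by
      linear_combination (4 * (1 + (x ^ 2 + y ^ 2)) * (1 + (x' ^ 2 + y' ^ 2))) * hdet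
    rw [div_sub_div _ _ (by positivity) (by positivity), div_sub_div _ _ (by positivity) (by positivity),
      div_pow, div_pow, div_pow, ← add_div, div_eq_div_iff (by positivity) (by positivity)]
    linear_combination (16 * (1 + (x ^ 2 + y ^ 2)) ^ 2 * (1 + (x' ^ 2 + y' ^ 2)) ^ 2) * key
  rw [e, Real.sqrt_sq (by positivity)]

lemma perimeter (x y x' y' : ℝ) (hdet : (x * y' - y * x') ^ 2 = 1) :
    dist (0 : EuclideanSpace ℝ (Fin 2)) (bp x y) + dist (bp x y) (bp x' y')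
      + dist (bp x' y') 0 = 1 := by
  rw [dist_comm (bp x' y') 0, dist_zero_bp, dist_zero_bp, dist_bp_bp x y x' y' hdet]
  have h : 0 < 1 + (x ^ 2 + y ^ 2) := by positivity
  have h' : 0 < 1 + (x' ^ 2 + y' ^ 2) := by positivity
  field_simp
  ring

lemma not_collinear (x y x' y' : ℝ) (hdet : (x * y' - y * x') ^ 2 = 1)
    (hdot : 0 < x * x' + y * y') :
    ¬ Collinear ℝ ({0, bp x y, bp x' y'} : Set (EuclideanSpace ℝ (Fin 2))) := by
  intro hc
  rw [collinear_iff_of_mem (p₀ := (0 : EuclideanSpace ℝ (Fin 2))) (by simp)] at hc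
  obtain ⟨v, hv⟩ := hc
  obtain ⟨r, hr⟩ := hv (bp x y) (by simp)
  obtain ⟨s, hs⟩ := hv (bp x' y') (by simp)
  simp only [vadd_eq_add, add_zero] at hr hs
  have h : 0 < 1 + (x ^ 2 + y ^ 2) := by positivity
  have h' : 0 < 1 + (x' ^ 2 + y' ^ 2) := by positivity
  have r0 : (bp x y) 0 = r * v 0 := by rw [hr]; simp
  have r1 : (bp x y) 1 = r * v 1 := by rw [hr]; simp
  have s0 : (bp x' y') 0 = s * v 0 := by rw [hs]; simp
  have s1 : (bp x' y') 1 = s * v 1 := by rw [hs]; simp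
  have hcross : (bp x y) 0 * (bp x' y') 1 - (bp x y) 1 * (bp x' y') 0 = 0 := by
    rw [r0, r1, s0, s1]; ring
  have e : (bp x y) 0 * (bp x' y') 1 - (bp x y) 1 * (bp x' y') 0
      = 2 * (x * x' + y * y') * (x * y' - y * x')
        / (2 * (1 + (x ^ 2 + y ^ 2)) * (2 * (1 + (x' ^ 2 + y' ^ 2)))) := by
    simp only [bp, PiLp.toLp_apply, Matrix.cons_val_zero, Matrix.cons_val_one]
    field_simp
    ring
  rw [e] at hcross
  have hne : x * y' - y * x' ≠ 0 := by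
    intro h0
    rw [h0] at hdet
    norm_num at hdet
  have := div_ne_zero (mul_ne_zero (mul_ne_zero two_ne_zero hdot.ne') hne)
    (show 2 * (1 + (x ^ 2 + y ^ 2)) * (2 * (1 + (x' ^ 2 + y' ^ 2))) ≠ 0 by positivity)
  exact this hcross

lemma bp_inj {x y x' y' : ℝ} (hx : 0 < x) (hx' : 0 < x') (h : bp x y = bp x' y') :
    x = x' ∧ y = y' := by
  have hN : 0 < 1 + (x ^ 2 + y ^ 2) := by positivity
  have hN' : 0 < 1 + (x' ^ 2 + y' ^ 2) := by positivity
  have hd : (x ^ 2 + y ^ 2) / (2 * (1 + (x ^ 2 + y ^ 2)))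
      = (x' ^ 2 + y' ^ 2) / (2 * (1 + (x' ^ 2 + y' ^ 2))) := by
    rw [← dist_zero_bp, ← dist_zero_bp, h]
  have hNN : x ^ 2 + y ^ 2 = x' ^ 2 + y' ^ 2 := by
    rw [div_eq_div_iff (by positivity) (by positivity)] at hd
    linarith
  have h0 : (bp x y) 0 = (bp x' y') 0 := by rw [h]
  have h1 : (bp x y) 1 = (bp x' y') 1 := by rw [h]
  simp only [bp, PiLp.toLp_apply, Matrix.cons_val_zero, Matrix.cons_val_one] at h0 h1
  rw [hNN] at h0 h1
  have hk : (2 * (1 + (x' ^ 2 + y' ^ 2))) ≠ 0 := by positivity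
  have h0' : x ^ 2 - y ^ 2 = x' ^ 2 - y' ^ 2 := by
    have := (div_left_inj' hk).mp h0
    exact this
  have h1' : 2 * x * y = 2 * x' * y' := by
    have := (div_left_inj' hk).mp h1
    exact this
  have hxx : x = x' := by
    have : x ^ 2 = x' ^ 2 := by linarith
    nlinarith
  subst hxx
  refine ⟨rfl, ?_⟩
  have : 2 * x ≠ 0 := by positivity
  exact mul_left_cancel₀ this h1'

/-- first family of points -/
noncomputable def P1 (k : ℕ) : Finset (EuclideanSpace ℝ (Fin 2)) := by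
  classical
  exact (Icc 1 k ×ˢ Icc 1 (2 * k ^ 2 + 1)).image (fun p : ℕ × ℕ => bp (p.1 : ℝ) (p.2 : ℝ))

/-- second family of points -/
noncomputable def P2 (k : ℕ) : Finset (EuclideanSpace ℝ (Fin 2)) := by
  classical
  exact (Icc 1 k ×ˢ Icc 2 (k ^ 2 + 1)).image
    (fun p : ℕ × ℕ => bp (1 / (p.2 : ℝ)) ((p.1 : ℝ) / (p.2 : ℝ)))

/-- the point set -/
noncomputable def PP (k : ℕ) : Finset (EuclideanSpace ℝ (Fin 2)) := by
  classical
  exact {0} ∪ (P1 k ∪ P2 k)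

lemma card_PP (k : ℕ) (hk : 1 ≤ k) : (PP k).card ≤ 5 * k ^ 3 := by
  classical
  have h1 : (P1 k).card ≤ k * (2 * k ^ 2 + 1) := by
    refine card_image_le.trans ?_
    rw [card_product, Nat.card_Icc, Nat.card_Icc]
    simp
  have h2 : (P2 k).card ≤ k * k ^ 2 := by
    refine card_image_le.trans ?_
    rw [card_product, Nat.card_Icc, Nat.card_Icc]
    simp
  have h3 : (PP k).card ≤ 1 + (k * (2 * k ^ 2 + 1) + k * k ^ 2) := by
    refine (card_union_le _ _).trans ?_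
    rw [card_singleton]
    have := card_union_le (P1 k) (P2 k)
    omega
  have h4 : k ≤ k ^ 3 := by nlinarith [Nat.pos_of_ne_zero (by omega : k ≠ 0), sq_nonneg (k : ℤ)]
  nlinarith

/-- index set of the triangles -/
def J (k : ℕ) : Finset (ℕ × ℕ × ℕ) := Icc 1 k ×ˢ Icc 1 k ×ˢ Icc 2 (k ^ 2 + 1)

lemma card_J (k : ℕ) : (J k).card = k ^ 4 := by
  rw [J, card_product, card_product, Nat.card_Icc, Nat.card_Icc]
  simp
  ring

/-- the triangle with index `(x, a, b)` -/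
noncomputable def tri (t : ℕ × ℕ × ℕ) : Finset (EuclideanSpace ℝ (Fin 2)) := by
  classical
  exact {0, bp (t.1 : ℝ) ((t.2.1 : ℝ) * t.1 + t.2.2), bp (1 / (t.2.2 : ℝ)) ((t.2.1 : ℝ) / t.2.2)}

lemma bp_ne_zero {x y : ℝ} (hx : 0 < x) : bp x y ≠ 0 := by
  intro h
  have h1 := dist_zero_bp x y
  rw [h, dist_self] at h1
  have : 0 < (x ^ 2 + y ^ 2) / (2 * (1 + (x ^ 2 + y ^ 2))) := by positivity
  linarith

lemma det_eq {x a b : ℝ} (hb : b ≠ 0) :
    (x * (a / b) - (a * x + b) * (1 / b)) ^ 2 = 1 := by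
  field_simp
  ring

lemma tri_inj (k : ℕ) : Set.InjOn tri (J k : Set (ℕ × ℕ × ℕ)) := by
  classical
  rintro ⟨x, a, b⟩ h ⟨x', a', b'⟩ h' heq
  simp only [J, coe_product, Set.mem_prod, mem_coe, mem_Icc] at h h'
  obtain ⟨⟨hx1, hx2⟩, ⟨ha1, ha2⟩, ⟨hb1, hb2⟩⟩ := h
  obtain ⟨⟨hx1', hx2'⟩, ⟨ha1', ha2'⟩, ⟨hb1', hb2'⟩⟩ := h'
  have hx0 : (0 : ℝ) < x := by exact_mod_cast hx1
  have hx0' : (0 : ℝ) < x' := by exact_mod_cast hx1'
  have hxg : (1 : ℝ) ≤ x := by exact_mod_cast hx1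
  have hxg' : (1 : ℝ) ≤ x' := by exact_mod_cast hx1'
  have hb0 : (0 : ℝ) < b := by exact_mod_cast (by omega : 0 < b)
  have hb0' : (0 : ℝ) < b' := by exact_mod_cast (by omega : 0 < b')
  have hbg : (2 : ℝ) ≤ b := by exact_mod_cast hb1
  have hbg' : (2 : ℝ) ≤ b' := by exact_mod_cast hb1'
  have hib : (0 : ℝ) < 1 / b := by positivity
  have hib' : (0 : ℝ) < 1 / b' := by positivity
  have hlt : (1 : ℝ) / b < 1 := by rw [div_lt_one hb0]; linarith
  have hlt' : (1 : ℝ) / b' < 1 := by rw [div_lt_one hb0']; linarith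
  simp only [tri] at heq
  -- membership of the two points
  have m1 : bp (x : ℝ) ((a : ℝ) * x + b) ∈
      ({0, bp (x' : ℝ) ((a' : ℝ) * x' + b'), bp (1 / (b' : ℝ)) ((a' : ℝ) / b')} :
        Finset (EuclideanSpace ℝ (Fin 2))) := by
    rw [← heq]; simp
  have m2 : bp (1 / (b : ℝ)) ((a : ℝ) / b) ∈
      ({0, bp (x' : ℝ) ((a' : ℝ) * x' + b'), bp (1 / (b' : ℝ)) ((a' : ℝ) / b')} :
        Finset (EuclideanSpace ℝ (Fin 2))) := by
    rw [← heq]; simp
  rw [mem_insert, mem_insert, mem_singleton] at m1 m2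
  have e1 : (x : ℝ) = x' := by
    rcases m1 with m | m | m
    · exact absurd m (bp_ne_zero hx0)
    · exact (bp_inj hx0 hx0' m).1
    · have := (bp_inj hx0 hib' m).1
      linarith
  have e2 : (1 : ℝ) / b = 1 / b' ∧ (a : ℝ) / b = (a' : ℝ) / b' := by
    rcases m2 with m | m | m
    · exact absurd m (bp_ne_zero hib)
    · have := (bp_inj hib hx0' m).1
      linarith
    · exact bp_inj hib hib' m
  have e3 : (b : ℝ) = b' := by
    have := e2.1
    field_simp at this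
    linarith
  have e4 : (a : ℝ) = a' := by
    have := e2.2
    rw [e3] at this
    exact (div_left_inj' hb0'.ne').mp this
  have f1 : x = x' := by exact_mod_cast e1
  have f2 : b = b' := by exact_mod_cast e3
  have f3 : a = a' := by exact_mod_cast e4
  rw [f1, f2, f3]

lemma tri_subset {k : ℕ} {t : ℕ × ℕ × ℕ} (ht : t ∈ J k) : tri t ⊆ PP k := by
  classical
  obtain ⟨x, a, b⟩ := t
  simp only [J, mem_product, mem_Icc] at ht
  obtain ⟨⟨hx1, hx2⟩, ⟨ha1, ha2⟩, ⟨hb1, hb2⟩⟩ := ht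
  intro p hp
  simp only [tri, mem_insert, mem_singleton] at hp
  rw [PP, mem_union, mem_union, mem_singleton]
  rcases hp with hp | hp | hp
  · exact Or.inl hp
  · right; left
    rw [P1, mem_image]
    refine ⟨(x, a * x + b), ?_, ?_⟩
    · rw [mem_product, mem_Icc, mem_Icc]
      refine ⟨⟨hx1, hx2⟩, by omega, ?_⟩
      have : a * x ≤ k * k := Nat.mul_le_mul ha2 hx2
      nlinarith
    · rw [hp]; push_cast; rfl
  · right; right
    rw [P2, mem_image]
    refine ⟨(a, b), ?_, ?_⟩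
    · rw [mem_product, mem_Icc, mem_Icc]
      exact ⟨⟨ha1, ha2⟩, hb1, hb2⟩
    · rw [hp]

lemma count_ge (k : ℕ) (P : Finset (EuclideanSpace ℝ (Fin 2))) (hP : PP k ⊆ P) :
    k ^ 4 ≤ unitPerimeterTriangles P := by
  classical
  have hfin : {T : Finset (EuclideanSpace ℝ (Fin 2)) | T ⊆ P ∧ ∃ a b c : EuclideanSpace ℝ (Fin 2),
      (T : Set (EuclideanSpace ℝ (Fin 2))) = {a, b, c} ∧
      ¬ Collinear ℝ ({a, b, c} : Set (EuclideanSpace ℝ (Fin 2)))
      ∧ dist a b + dist b c + dist c a = 1}.Finite := by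
    refine (P.powerset.finite_toSet).subset ?_
    intro T hT
    simp only [coe_powerset, Set.mem_preimage, Set.mem_powerset_iff, coe_subset]
    exact hT.1
  have hsub : ((J k).image tri : Set (Finset (EuclideanSpace ℝ (Fin 2)))) ⊆
      {T : Finset (EuclideanSpace ℝ (Fin 2)) | T ⊆ P ∧ ∃ a b c : EuclideanSpace ℝ (Fin 2),
      (T : Set (EuclideanSpace ℝ (Fin 2))) = {a, b, c} ∧
      ¬ Collinear ℝ ({a, b, c} : Set (EuclideanSpace ℝ (Fin 2)))
      ∧ dist a b + dist b c + dist c a = 1} := by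
    intro T hT
    rw [mem_coe, mem_image] at hT
    obtain ⟨t, ht, rfl⟩ := hT
    refine ⟨(tri_subset ht).trans hP, ?_⟩
    obtain ⟨x, a, b⟩ := t
    simp only [J, mem_product, mem_Icc] at ht
    obtain ⟨⟨hx1, hx2⟩, ⟨ha1, ha2⟩, ⟨hb1, hb2⟩⟩ := ht
    have hx0 : (0 : ℝ) < x := by exact_mod_cast hx1
    have ha0 : (0 : ℝ) < a := by exact_mod_cast ha1
    have hb0 : (0 : ℝ) < b := by exact_mod_cast (by omega : 0 < b)
    refine ⟨0, bp (x : ℝ) ((a : ℝ) * x + b), bp (1 / (b : ℝ)) ((a : ℝ) / b), ?_, ?_, ?_⟩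
    · simp [tri]
    · exact not_collinear _ _ _ _ (det_eq hb0.ne') (by positivity)
    · exact perimeter _ _ _ _ (det_eq hb0.ne')
  have h1 := Set.ncard_le_ncard hsub hfin
  rw [Set.ncard_coe_finset, card_image_of_injOn (tri_inj k), card_J] at h1
  exact h1

/-- For every `n ≥ 5` there are `n` points in the plane spanning at least `n^{4/3} / 200`
(non-degenerate) triangles of perimeter one. -/
theorem result : ∀ n : ℕ, 5 ≤ n → ∃ P : Finset (EuclideanSpace ℝ (Fin 2)), P.card = n ∧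
    (n : ℝ) ^ (4 / 3 : ℝ) / 200 ≤ (unitPerimeterTriangles P : ℝ) := by
  intro n hn
  classical
  -- the largest `k` with `5 k^3 ≤ n`
  have hex : ∃ k, 5 * k ^ 3 ≤ n ∧ n < 5 * (k + 1) ^ 3 := by
    have hbound : ∃ m, n < 5 * (m + 1) ^ 3 := by
      refine ⟨n, ?_⟩
      have := Nat.le_self_pow (n := 3) (by norm_num) (n + 1)
      omega
    refine ⟨Nat.find hbound, ?_, Nat.find_spec hbound⟩
    rcases Nat.eq_zero_or_pos (Nat.find hbound) with h0 | h0
    · rw [h0]; simp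
    · have := Nat.find_min hbound (Nat.sub_lt h0 one_pos)
      have h1 : Nat.find hbound - 1 + 1 = Nat.find hbound := by omega
      rw [h1] at this
      omega
  obtain ⟨k, hk1, hk2⟩ := hex
  have hk : 1 ≤ k := by
    rcases Nat.eq_zero_or_pos k with h0 | h0
    · rw [h0] at hk2; omega
    · exact h0
  have hcard : (PP k).card ≤ n := (card_PP k hk).trans hk1
  obtain ⟨P, hP1, hP2⟩ := Infinite.exists_superset_card_eq (PP k) n hcard
  refine ⟨P, hP2, ?_⟩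
  have h1 := count_ge k P hP1
  have h2 : (n : ℝ) ≤ 40 * (k : ℝ) ^ 3 := by
    have h3 : k + 1 ≤ 2 * k := by omega
    have h4 : (k + 1) ^ 3 ≤ (2 * k) ^ 3 := Nat.pow_le_pow_left h3 3
    have h5 : n ≤ 40 * k ^ 3 := by
      have : (2 * k) ^ 3 = 8 * k ^ 3 := by ring
      omega
    exact_mod_cast h5
  have h6 : (n : ℝ) ^ (4 / 3 : ℝ) ≤ (40 * (k : ℝ) ^ 3) ^ (4 / 3 : ℝ) :=
    Real.rpow_le_rpow (by positivity) h2 (by norm_num)
  have h7 : (40 * (k : ℝ) ^ 3) ^ (4 / 3 : ℝ) = (40 : ℝ) ^ (4 / 3 : ℝ) * (k : ℝ) ^ 4 := by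
    rw [Real.mul_rpow (by norm_num) (by positivity), ← Real.rpow_natCast (k : ℝ) 3,
      ← Real.rpow_mul (by positivity), ← Real.rpow_natCast (k : ℝ) 4]
    norm_num
  have h8 : (40 : ℝ) ^ (4 / 3 : ℝ) ≤ 200 := by
    have : (40 : ℝ) ^ (4 / 3 : ℝ) ≤ (200 : ℝ) := by
      have e : (40 : ℝ) ^ (4 / 3 : ℝ) = ((40 : ℝ) ^ (4 : ℕ)) ^ (1 / 3 : ℝ) := by
        rw [← Real.rpow_natCast, ← Real.rpow_mul (by norm_num)]
        norm_num
      have e2 : (200 : ℝ) = ((200 : ℝ) ^ (3 : ℕ)) ^ (1 / 3 : ℝ) := by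
        rw [← Real.rpow_natCast, ← Real.rpow_mul (by norm_num)]
        norm_num
      rw [e, e2]
      exact Real.rpow_le_rpow (by norm_num) (by norm_num) (by norm_num)
    exact this
  have h9 : ((k ^ 4 : ℕ) : ℝ) ≤ (unitPerimeterTriangles P : ℝ) := by exact_mod_cast h1
  push_cast at h9
  have h10 : (k : ℝ) ^ 4 ≥ 0 := by positivity
  rw [div_le_iff₀ (by norm_num)]
  nlinarith

end Pool.Agent.Results.MP_75315a_co.FourThirds
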